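import Mathlib

/-!
The join of a clique of `K` hubs with `K` disjoint cliques: no Hamilton cycle uses an edge
between two hubs.
-/

namespace Pool.Agent.Lib.MP_0a7691_co

open SimpleGraph Finset

/-- vertices `0, …, n-1`; the multiples of `M` are the hubs, `i / M` is the block of `i` -/
def hubGraph (n M : ℕ) : SimpleGraph (Fin n) where
  Adj i j := i ≠ j ∧ (i.val % M = 0 ∨ j.val % M = 0 ∨ i.val / M = j.val / M)
  symm := ⟨fun i j h => ⟨h.1.symm, by tauto⟩⟩
  loopless := ⟨fun i h => h.1 rfl⟩

theorem hub_adj {n M : ℕ} {i j : Fin n} : (hubGraph n M).Adj i j ↔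
    i ≠ j ∧ (i.val % M = 0 ∨ j.val % M = 0 ∨ i.val / M = j.val / M) := Iff.rfl

theorem hamiltonian (N M : ℕ) :
    (hubGraph (N + 3) M).IsHamiltonian := by
  have h1 : (cycleGraph (N + 3)).IsHamiltonian := fun _ =>
    ⟨0, cycleGraph.cycle N, Walk.isHamiltonianCycle_iff_isCycle_and_length_eq.2
      ⟨cycleGraph.isCycle_cycle, by simp [cycleGraph.length_cycle]⟩⟩
  refine h1.mono ?_
  have key : ∀ u v : Fin (N + 3), (u - v).val = 1 →
      (u.val % M = 0 ∨ u.val / M = v.val / M) := by
    intro u v huv
    have hu : u = v + 1 := by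
      have : u - v = 1 := Fin.ext (by simpa using huv)
      rw [← this]; simp
    subst hu
    rw [Fin.val_add_one]
    split_ifs with hv
    · simp
    · by_cases hd : M ∣ v.val + 1
      · exact Or.inl (Nat.mod_eq_zero_of_dvd hd)
      · exact Or.inr (Nat.succ_div_of_not_dvd hd)
  intro u v huv
  refine ⟨huv.ne, ?_⟩
  rcases cycleGraph_adj'.1 huv with h | h
  · have := key u v h; tauto
  · have := key v u h; tauto

theorem indepNum_le (n K M : ℕ) (h : n = K * M) (hM : 0 < M) :
    (hubGraph n M).indepNum ≤ K := by
  obtain ⟨s, hs⟩ := (hubGraph n M).exists_isNIndepSet_indepNum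
  rw [← hs.card_eq]
  have : s.card ≤ (range K).card := by
    refine card_le_card_of_injOn (fun i => i.val / M) ?_ ?_
    · intro i _
      simp only [coe_range, Set.mem_Iio]
      rw [Nat.div_lt_iff_lt_mul hM, ← h]
      exact i.2
    · intro i hi j hj hij
      by_contra hne
      exact hs.isIndepSet hi hj hne ⟨hne, Or.inr (Or.inr hij)⟩
  simpa using this

theorem connected_compl (n K M : ℕ) (h : n = K * M) (hM : 0 < M) (S : Finset (Fin n))
    (hS : S.card < K) : ((hubGraph n M).induce ((↑S : Set (Fin n))ᶜ)).Connected := by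
  have hlt : ∀ b : Fin K, b.val * M < n := fun b => by
    rw [h]; exact Nat.mul_lt_mul_of_pos_right b.2 hM
  have : ∃ b : Fin K, (⟨b.val * M, hlt b⟩ : Fin n) ∉ S := by
    by_contra hc
    push Not at hc
    have : (univ : Finset (Fin K)).card ≤ S.card := by
      refine card_le_card_of_injOn (fun b => (⟨b.val * M, hlt b⟩ : Fin n)) (fun b _ => hc b) ?_
      intro a _ b _ hab
      simp only [Fin.mk.injEq] at hab
      exact Fin.ext (Nat.eq_of_mul_eq_mul_right hM hab)
    simp at this
    omega
  obtain ⟨b, hb⟩ := this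
  rw [connected_iff_exists_forall_reachable]
  refine ⟨⟨_, hb⟩, fun w => ?_⟩
  by_cases hw : (⟨_, hb⟩ : ((↑S : Set (Fin n))ᶜ : Set (Fin n))) = w
  · rw [hw]
  · refine Adj.reachable ?_
    refine ⟨fun h' => hw (Subtype.ext h'), Or.inl (by simp)⟩

theorem no_hub_edge (n K M : ℕ) (h : n = K * M) (hM : 2 ≤ M) {u : Fin n}
    (p : (hubGraph n M).Walk u u) (hp : p.IsHamiltonianCycle) (a b : Fin n)
    (ha : a.val % M = 0) (hb : b.val % M = 0) : s(a, b) ∉ p.edges := by
  classical
  have hlen : p.length = n := by simpa using hp.length_eq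
  have hM0 : 0 < M := by omega
  have hadj : ∀ i < n, (hubGraph n M).Adj (p.getVert i) (p.getVert (i + 1)) :=
    fun i hi => p.adj_getVert_succ (by omega)
  have hend : p.getVert n = p.getVert 0 := by
    rw [p.getVert_of_length_le hlen.le, p.getVert_zero]
  have hsurj : ∀ v, ∃ i ≤ n, p.getVert i = v := by
    intro v
    obtain ⟨i, hi, hi'⟩ := Walk.mem_support_iff_exists_getVert.1 (hp.mem_support v)
    exact ⟨i, by omega, hi⟩
  let I := (range n).filter fun i => (p.getVert (i + 1)).val % M = 0
  let J := (range n).filter fun i =>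
    (p.getVert (i + 1)).val % M = 0 ∧ (p.getVert i).val % M ≠ 0
  have hJI : J ⊆ I := by
    intro i hi
    simp only [I, J, mem_filter] at hi ⊢
    exact ⟨hi.1, hi.2.1⟩
  have hI : I.card ≤ K := by
    have : I.card ≤ (range K).card := by
      refine card_le_card_of_injOn (fun i => (p.getVert (i + 1)).val / M) ?_ ?_
      · intro i _
        simp only [coe_range, Set.mem_Iio]
        rw [Nat.div_lt_iff_lt_mul hM0, ← h]
        exact (p.getVert (i + 1)).2
      · intro i hi j hj hij
        simp only [I, coe_filter, mem_range, Set.mem_ofPred_eq] at hi hj hij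
        have h1 := Nat.div_add_mod (p.getVert (i + 1)).val M
        have h2 := Nat.div_add_mod (p.getVert (j + 1)).val M
        have : p.getVert (i + 1) = p.getVert (j + 1) := by
          apply Fin.ext
          rw [← h1, ← h2, hij, hi.2, hj.2]
        have := hp.isCycle.getVert_injOn (by simp; omega) (by simp; omega) this
        omega
    simpa using this
  have hJ : K ≤ J.card := by
    have : (range K).card ≤ J.card := by
      refine card_le_card_of_surjOn (fun i => (p.getVert i).val / M) ?_
      intro c hc
      simp only [coe_range, Set.mem_Iio] at hc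
      let P : ℕ → Prop := fun i => (p.getVert i).val % M ≠ 0 ∧ (p.getVert i).val / M = c
      have hlt : c * M + 1 < n := by
        have : (c + 1) * M ≤ K * M := Nat.mul_le_mul_right _ hc
        rw [h]; nlinarith
      obtain ⟨j, hj, hj'⟩ := hsurj ⟨c * M + 1, hlt⟩
      obtain ⟨j', hj2, hj2'⟩ := hsurj ⟨0, by omega⟩
      have hPj : P j := by
        simp only [P, hj']
        constructor
        · rw [Nat.mul_add_mod_of_lt (by omega)]; omega
        · rw [mul_comm, Nat.mul_add_div hM0, Nat.div_eq_of_lt (by omega)]; rfl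
      have hPj' : ¬ P j' := by simp [P, hj2']
      have hex : ∃ i < n, P i ∧ ¬ P (i + 1) := by
        by_contra hc
        push Not at hc
        have step : ∀ i d, i + d ≤ n → P i → P (i + d) := by
          intro i d
          induction d with
          | zero => exact fun _ h => h
          | succ d ih => exact fun hd h => hc (i + d) (by omega) (ih (by omega) h)
        have h1 : P n := by
          have := step j (n - j) (by omega) hPj
          rwa [Nat.add_sub_cancel' hj] at this
        have h2 : P 0 := by
          simp only [P] at h1 ⊢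
          rwa [hend] at h1
        have := step 0 j' (by omega) h2
        rw [zero_add] at this
        exact hPj' this
      obtain ⟨i, hi, hP, hP'⟩ := hex
      refine ⟨i, ?_, hP.2⟩
      simp only [J, coe_filter, mem_range, Set.mem_ofPred_eq]
      refine ⟨hi, ?_, hP.1⟩
      by_contra hne
      rcases (hadj i hi).2 with h1 | h1 | h1
      · exact hP.1 h1
      · exact hne h1
      · exact hP' ⟨hne, h1 ▸ hP.2⟩
    simpa using this
  have hEq : J = I := eq_of_subset_of_card_le hJI (hI.trans hJ)
  intro he
  obtain ⟨i, hi, hie⟩ := p.mk_mem_edges_iff_exists.1 he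
  have h2 : (p.getVert (i + 1)).val % M = 0 ∧ (p.getVert i).val % M = 0 := by
    rcases Sym2.eq_iff.1 hie with ⟨h1, h2⟩ | ⟨h1, h2⟩ <;> rw [h1, h2] <;> tauto
  have : i ∈ I := by
    simp only [I, mem_filter, mem_range]
    exact ⟨by omega, h2.1⟩
  rw [← hEq] at this
  simp only [J, mem_filter] at this
  exact this.2.2 h2.2

end Pool.Agent.Lib.MP_0a7691_co
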