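import Mathlib

/-!
The join of a clique of `a` hubs with `a - 1` isolated vertices and one more clique, on any
number `n ≥ 2 a` of vertices: no Hamilton cycle uses an edge between two hubs.
-/

namespace Pool.Agent.Lib.MP_0a7691_co.Join

open SimpleGraph Finset

/-- vertices `0, …, n-1`; the even numbers below `2 a` are the hubs, and `min (i / 2) (a - 1)` is
the block of `i` -/
def joinGraph (n a : ℕ) : SimpleGraph (Fin n) where
  Adj i j := i ≠ j ∧ ((i.val % 2 = 0 ∧ i.val < 2 * a) ∨ (j.val % 2 = 0 ∧ j.val < 2 * a) ∨
    min (i.val / 2) (a - 1) = min (j.val / 2) (a - 1))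
  symm := ⟨fun i j h => ⟨h.1.symm, by tauto⟩⟩
  loopless := ⟨fun i h => h.1 rfl⟩

theorem join_adj {n a : ℕ} {i j : Fin n} : (joinGraph n a).Adj i j ↔
    i ≠ j ∧ ((i.val % 2 = 0 ∧ i.val < 2 * a) ∨ (j.val % 2 = 0 ∧ j.val < 2 * a) ∨
      min (i.val / 2) (a - 1) = min (j.val / 2) (a - 1)) := Iff.rfl

theorem hamiltonian (N a : ℕ) (ha : 0 < a) :
    (joinGraph (N + 3) a).IsHamiltonian := by
  have h1 : (cycleGraph (N + 3)).IsHamiltonian := fun _ =>
    ⟨0, cycleGraph.cycle N, Walk.isHamiltonianCycle_iff_isCycle_and_length_eq.2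
      ⟨cycleGraph.isCycle_cycle, by simp [cycleGraph.length_cycle]⟩⟩
  refine h1.mono ?_
  have key : ∀ u v : Fin (N + 3), (u - v).val = 1 →
      ((u.val % 2 = 0 ∧ u.val < 2 * a) ∨
        min (u.val / 2) (a - 1) = min (v.val / 2) (a - 1)) := by
    intro u v huv
    have hu : u = v + 1 := by
      have : u - v = 1 := Fin.ext (by simpa using huv)
      rw [← this]; simp
    subst hu
    rw [Fin.val_add_one]
    split_ifs with hv
    · left; omega
    · omega
  intro u v huv
  refine ⟨huv.ne, ?_⟩
  rcases cycleGraph_adj'.1 huv with h | h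
  · have := key u v h; tauto
  · have := key v u h; tauto

theorem indepNum_eq (n a : ℕ) (ha : 0 < a) (h : 2 * a ≤ n) :
    (joinGraph n a).indepNum = a := by
  classical
  apply le_antisymm
  · obtain ⟨s, hs⟩ := (joinGraph n a).exists_isNIndepSet_indepNum
    rw [← hs.card_eq]
    have : s.card ≤ (range a).card := by
      refine card_le_card_of_injOn (fun i => min (i.val / 2) (a - 1)) ?_ ?_
      · intro i _
        simp only [coe_range, Set.mem_Iio]
        omega
      · intro i hi j hj hij
        by_contra hne
        exact hs.isIndepSet hi hj hne ⟨hne, Or.inr (Or.inr hij)⟩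
    simpa using this
  · let g : Fin a → Fin n := fun c => ⟨2 * c.val + 1, by have := c.2; omega⟩
    have hg : Function.Injective g := by
      intro c d hcd
      have := congrArg Fin.val hcd
      simp only [g] at this
      exact Fin.ext (by omega)
    have hs : (joinGraph n a).IsIndepSet (↑(univ.image g) : Set (Fin n)) := by
      intro x hx y hy hxy hadj
      simp only [coe_image, coe_univ, Set.image_univ, Set.mem_range] at hx hy
      obtain ⟨c, rfl⟩ := hx
      obtain ⟨d, rfl⟩ := hy
      have h2 := hadj.2
      have hc := c.2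
      have hd := d.2
      simp only [g] at h2
      exact hxy (congrArg g (Fin.ext (by omega)))
    have := hs.card_le_indepNum
    rwa [card_image_of_injective _ hg, card_univ, Fintype.card_fin] at this

theorem connected_compl (n a : ℕ) (h : 2 * a ≤ n) (S : Finset (Fin n))
    (hS : S.card < a) : ((joinGraph n a).induce ((↑S : Set (Fin n))ᶜ)).Connected := by
  have hlt : ∀ b : Fin a, 2 * b.val < n := fun b => by have := b.2; omega
  have : ∃ b : Fin a, (⟨2 * b.val, hlt b⟩ : Fin n) ∉ S := by
    by_contra hc
    push Not at hc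
    have : (univ : Finset (Fin a)).card ≤ S.card := by
      refine card_le_card_of_injOn (fun b => (⟨2 * b.val, hlt b⟩ : Fin n)) (fun b _ => hc b) ?_
      intro c _ b _ hab
      simp only [Fin.mk.injEq] at hab
      exact Fin.ext (by omega)
    simp at this
    omega
  obtain ⟨b, hb⟩ := this
  rw [connected_iff_exists_forall_reachable]
  refine ⟨⟨_, hb⟩, fun w => ?_⟩
  by_cases hw : (⟨_, hb⟩ : ((↑S : Set (Fin n))ᶜ : Set (Fin n))) = w
  · rw [hw]
  · refine Adj.reachable ?_
    have := b.2
    refine ⟨fun h' => hw (Subtype.ext h'), Or.inl ⟨?_, ?_⟩⟩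
    · show (2 * b.val) % 2 = 0
      omega
    · show 2 * b.val < 2 * a
      omega

theorem no_hub_edge (n a : ℕ) (ha : 0 < a) (h : 2 * a ≤ n) {u : Fin n}
    (p : (joinGraph n a).Walk u u) (hp : p.IsHamiltonianCycle) (x y : Fin n)
    (hx : x.val % 2 = 0 ∧ x.val < 2 * a) (hy : y.val % 2 = 0 ∧ y.val < 2 * a) :
    s(x, y) ∉ p.edges := by
  classical
  have hlen : p.length = n := by simpa using hp.length_eq
  have hadj : ∀ i < n, (joinGraph n a).Adj (p.getVert i) (p.getVert (i + 1)) :=
    fun i hi => p.adj_getVert_succ (by omega)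
  have hend : p.getVert n = p.getVert 0 := by
    rw [p.getVert_of_length_le hlen.le, p.getVert_zero]
  have hsurj : ∀ v, ∃ i ≤ n, p.getVert i = v := by
    intro v
    obtain ⟨i, hi, hi'⟩ := Walk.mem_support_iff_exists_getVert.1 (hp.mem_support v)
    exact ⟨i, by omega, hi⟩
  let H : Fin n → Prop := fun v => v.val % 2 = 0 ∧ v.val < 2 * a
  let I := (range n).filter fun i => H (p.getVert (i + 1))
  let J := (range n).filter fun i => H (p.getVert (i + 1)) ∧ ¬ H (p.getVert i)
  have hJI : J ⊆ I := by
    intro i hi
    simp only [I, J, mem_filter] at hi ⊢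
    exact ⟨hi.1, hi.2.1⟩
  have hI : I.card ≤ a := by
    have : I.card ≤ (range a).card := by
      refine card_le_card_of_injOn (fun i => (p.getVert (i + 1)).val / 2) ?_ ?_
      · intro i hi
        simp only [I, H, coe_filter, mem_range, Set.mem_ofPred_eq] at hi
        simp only [coe_range, Set.mem_Iio]
        omega
      · intro i hi j hj hij
        simp only [I, H, coe_filter, mem_range, Set.mem_ofPred_eq] at hi hj hij
        have : p.getVert (i + 1) = p.getVert (j + 1) := by
          apply Fin.ext
          omega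
        have := hp.isCycle.getVert_injOn (by simp; omega) (by simp; omega) this
        omega
    simpa using this
  have hJ : a ≤ J.card := by
    have : (range a).card ≤ J.card := by
      refine card_le_card_of_surjOn (fun i => min ((p.getVert i).val / 2) (a - 1)) ?_
      intro c hc
      simp only [coe_range, Set.mem_Iio] at hc
      let P : ℕ → Prop := fun i =>
        ¬ H (p.getVert i) ∧ min ((p.getVert i).val / 2) (a - 1) = c
      have hlt : 2 * c + 1 < n := by omega
      obtain ⟨j, hj, hj'⟩ := hsurj ⟨2 * c + 1, hlt⟩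
      obtain ⟨j', hj2, hj2'⟩ := hsurj ⟨0, by omega⟩
      have hPj : P j := by
        simp only [P, H, hj']
        omega
      have hPj' : ¬ P j' := by
        simp only [P, H, hj2']
        exact fun h' => h'.1 ⟨trivial, by omega⟩
      have hex : ∃ i < n, P i ∧ ¬ P (i + 1) := by
        by_contra hc
        push Not at hc
        have step : ∀ i d, i + d ≤ n → P i → P (i + d) := by
          intro i d
          induction d with
          | zero => exact fun _ h => h
          | succ d ih => exact fun hd h => hc (i + d) (by omega) (ih (by omega) h)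
        have h1 : P n := by
          have := step j (n - j) (by omega) hPj
          rwa [Nat.add_sub_cancel' hj] at this
        have h2 : P 0 := by
          simp only [P] at h1 ⊢
          rwa [hend] at h1
        have := step 0 j' (by omega) h2
        rw [zero_add] at this
        exact hPj' this
      obtain ⟨i, hi, hP, hP'⟩ := hex
      refine ⟨i, ?_, hP.2⟩
      simp only [J, coe_filter, mem_range, Set.mem_ofPred_eq]
      refine ⟨hi, ?_, hP.1⟩
      by_contra hne
      rcases (hadj i hi).2 with h1 | h1 | h1
      · exact hP.1 h1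
      · exact hne h1
      · exact hP' ⟨hne, h1 ▸ hP.2⟩
    simpa using this
  have hEq : J = I := eq_of_subset_of_card_le hJI (hI.trans hJ)
  intro he
  obtain ⟨i, hi, hie⟩ := p.mk_mem_edges_iff_exists.1 he
  have h2 : H (p.getVert (i + 1)) ∧ H (p.getVert i) := by
    rcases Sym2.eq_iff.1 hie with ⟨h1, h2⟩ | ⟨h1, h2⟩ <;> rw [h1, h2] <;>
      exact ⟨by assumption, by assumption⟩
  have : i ∈ I := by
    simp only [I, mem_filter, mem_range]
    exact ⟨by omega, h2.1⟩
  rw [← hEq] at this
  simp only [J, mem_filter] at this
  exact this.2.2 h2.2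

end Pool.Agent.Lib.MP_0a7691_co.Join
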